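import Pool.Agent.K1H27.TP.Stm

/-!
Piece LIN2 of project TP (from AREA and LINE).
-/

set_option autoImplicit false

namespace Pool.Agent.K1H31.TP

open MeasureTheory Pool.Agent.K1H27.TP

lemma ii_of_bdd {f : ℝ → ℝ} (hf : Measurable f) (hb : ∀ x, |f x| ≤ 1) (a b : ℝ) :
    IntervalIntegrable f volume a b := by
  rw [intervalIntegrable_iff]
  refine Measure.integrableOn_of_bounded (M := 1) ?_ hf.aestronglyMeasurable ?_
  · rw [Set.uIoc, Real.volume_Ioc]
    exact ENNReal.ofReal_ne_top
  · exact Filter.Eventually.of_forall fun x => by rw [Real.norm_eq_abs]; exact hb x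

lemma pos_bdd {ψ : ℝ → ℝ} (hb : ∀ x, |ψ x| ≤ 1) (x : ℝ) : |max (ψ x) 0| ≤ 1 := by
  have h := abs_le.mp (hb x)
  rw [abs_of_nonneg (le_max_right _ _)]
  exact max_le h.2 zero_le_one

lemma neg_bdd {ψ : ℝ → ℝ} (hb : ∀ x, |ψ x| ≤ 1) (x : ℝ) : |max (-ψ x) 0| ≤ 1 := by
  have h := abs_le.mp (hb x)
  rw [abs_of_nonneg (le_max_right _ _)]
  exact max_le (by linarith) zero_le_one

lemma int_nonneg {f : ℝ → ℝ} {a b : ℝ} (hab : a ≤ b) (h0 : ∀ x, 0 ≤ f x) :
    0 ≤ ∫ s in a..b, f s := intervalIntegral.integral_nonneg hab fun x _ => h0 x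

lemma int_le {f : ℝ → ℝ} {a b : ℝ} (hab : a ≤ b) (hf : Measurable f) (hb : ∀ x, |f x| ≤ 1) :
    ∫ s in a..b, f s ≤ b - a := by
  have h1 : ∫ s in a..b, f s ≤ ∫ _s in a..b, (1 : ℝ) :=
    intervalIntegral.integral_mono_on hab (ii_of_bdd hf hb a b) intervalIntegrable_const
      fun x _ => (abs_le.mp (hb x)).2
  rw [intervalIntegral.integral_const, smul_eq_mul, mul_one] at h1
  exact h1

/-- **piece LIN2** -/
theorem t_LIN2 (hA : S_AREA) (hL : S_LINE) : S_LIN2 := by
  intro u v z ψ K huv hvz hψ hb hK h1 h2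
  have hp : Measurable fun s => max (ψ s) 0 := hψ.max measurable_const
  have hn : Measurable fun s => max (-ψ s) 0 := hψ.neg.max measurable_const
  have iψ := ii_of_bdd hψ hb
  have ip := ii_of_bdd hp (pos_bdd hb)
  have iN := ii_of_bdd hn (neg_bdd hb)
  have hPc : Continuous fun t => ∫ s in u..t, ψ s := intervalIntegral.continuous_primitive iψ u
  have hQc : Continuous fun t => ∫ s in v..t, ψ s := intervalIntegral.continuous_primitive iψ v
  have hK1 : ContinuousOn K (Set.Icc u v) := hK.mono (Set.Icc_subset_Icc_right hvz)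
  have hK2 : ContinuousOn K (Set.Icc v z) := hK.mono (Set.Icc_subset_Icc_left huv)
  have iK1 : IntervalIntegrable K volume u v := by
    apply ContinuousOn.intervalIntegrable
    rwa [Set.uIcc_of_le huv]
  have iK2 : IntervalIntegrable K volume v z := by
    apply ContinuousOn.intervalIntegrable
    rwa [Set.uIcc_of_le hvz]
  have iD1 : IntervalIntegrable (fun t => |(∫ s in u..t, ψ s) - K t|) volume u v := by
    apply ContinuousOn.intervalIntegrable
    rw [Set.uIcc_of_le huv]
    exact (hPc.continuousOn.sub hK1).abs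
  have iD2 : IntervalIntegrable (fun t => |(∫ s in u..t, ψ s) - K t|) volume v z := by
    apply ContinuousOn.intervalIntegrable
    rw [Set.uIcc_of_le hvz]
    exact (hPc.continuousOn.sub hK2).abs
  -- the first interval
  have e1 := hL u v ψ K huv hψ hb hK1 h1
  -- the second interval
  have e2 : ∫ t in v..z, |(∫ s in u..t, ψ s) - K t| =
      (∫ s in u..v, ψ s) * (z - v) + (∫ t in v..z, (∫ s in v..t, ψ s)) - ∫ t in v..z, K t := by
    have e3 : ∫ t in v..z, |(∫ s in u..t, ψ s) - K t| =
        ∫ t in v..z, ((∫ s in u..v, ψ s) + (∫ s in v..t, ψ s) - K t) := by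
      apply intervalIntegral.integral_congr
      intro t ht
      rw [Set.uIcc_of_le hvz] at ht
      show |(∫ s in u..t, ψ s) - K t| = (∫ s in u..v, ψ s) + (∫ s in v..t, ψ s) - K t
      rw [abs_of_nonneg (sub_nonneg.mpr (h2 t ht)),
        intervalIntegral.integral_add_adjacent_intervals (iψ u v) (iψ v t)]
    rw [e3, intervalIntegral.integral_sub, intervalIntegral.integral_add,
      intervalIntegral.integral_const, smul_eq_mul]
    · ring
    · exact intervalIntegrable_const
    · exact hQc.intervalIntegrable _ _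
    · exact intervalIntegrable_const.add (hQc.intervalIntegrable _ _)
    · exact iK2
  have e4 := hA v z ψ hvz hψ hb
  have e5 : ∫ t in u..z, |(∫ s in u..t, ψ s) - K t| =
      (∫ t in u..v, |(∫ s in u..t, ψ s) - K t|) + ∫ t in v..z, |(∫ s in u..t, ψ s) - K t| :=
    (intervalIntegral.integral_add_adjacent_intervals iD1 iD2).symm
  have e6 : ∫ t in u..z, K t = (∫ t in u..v, K t) + ∫ t in v..z, K t :=
    (intervalIntegral.integral_add_adjacent_intervals iK1 iK2).symm
  -- masses
  have m1 : pm ψ u z = pm ψ u v + pm ψ v z :=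
    (intervalIntegral.integral_add_adjacent_intervals (ip u v) (ip v z)).symm
  have m2 : nm ψ u z = nm ψ u v + nm ψ v z :=
    (intervalIntegral.integral_add_adjacent_intervals (iN u v) (iN v z)).symm
  have m3 : ∫ s in u..v, ψ s = pm ψ u v - nm ψ u v := by
    unfold pm nm
    rw [← intervalIntegral.integral_sub (ip u v) (iN u v)]
    apply intervalIntegral.integral_congr
    intro s _
    show ψ s = max (ψ s) 0 - max (-ψ s) 0
    rcases le_total 0 (ψ s) with h | h
    · rw [max_eq_left h, max_eq_right (by linarith), sub_zero]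
    · rw [max_eq_right h, max_eq_left (by linarith)]
      ring
  have a1 : pm ψ u v ≤ v - u := int_le huv hp (pos_bdd hb)
  have b1 : 0 ≤ nm ψ u v := int_nonneg huv fun x => le_max_right _ _
  have a2 : 0 ≤ pm ψ v z := int_nonneg hvz fun x => le_max_right _ _
  have b2 : nm ψ v z ≤ z - v := int_le hvz hn (neg_bdd hb)
  have q1 := mul_nonneg a2 (sub_nonneg.mpr a1)
  have q2 := mul_nonneg b1 (sub_nonneg.mpr b2)
  unfold U at e1 e4 ⊢
  rw [e5, e2, e6, m1, m2, m3]
  rw [m3] at e2
  nlinarith

end Pool.Agent.K1H31.TP
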